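import Mathlib

/-!
# Roots of unity congruent to one modulo `t`, where `p t = - t ^ p + ...`
-/

set_option autoImplicit false
set_option linter.unusedSectionVars false

namespace Pool.Agent.helper61.ER

theorem binom_prime {Λ : Type*} [CommRing Λ] {q : ℕ} (hq : q.Prime) (s : Λ) :
    ∃ c, (1 + s) ^ q = 1 + q * s + q * s ^ 2 * c + s ^ q := by
  obtain ⟨n, rfl⟩ : ∃ n, q = n + 2 := ⟨q - 2, by have := hq.two_le; omega⟩
  rw [add_comm 1 s, add_pow, Finset.sum_range_succ, Finset.sum_range_succ', Finset.sum_range_succ']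
  have h : ∀ m ∈ Finset.range n, ∃ d : ℕ, (n + 2).choose (m + 1 + 1) = (n + 2) * d := by
    intro m hm
    rw [Finset.mem_range] at hm
    exact hq.dvd_choose_self (by omega) (by omega)
  choose! d hd using h
  refine ⟨∑ m ∈ Finset.range n, s ^ m * d m, ?_⟩
  have h1 : ∑ m ∈ Finset.range n, s ^ (m + 1 + 1) * 1 ^ (n + 2 - (m + 1 + 1)) *
      ((n + 2).choose (m + 1 + 1) : ℕ) = ((n + 2 : ℕ) : Λ) * s ^ 2 * ∑ m ∈ Finset.range n,
        s ^ m * d m := by
    rw [Finset.mul_sum]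
    refine Finset.sum_congr rfl fun m hm => ?_
    rw [hd m hm]
    push_cast
    ring
  rw [h1]
  simp only [zero_add, pow_one, one_pow, mul_one, Nat.choose_one_right, pow_zero,
    Nat.choose_zero_right, Nat.cast_one, Nat.choose_self]
  ring

section abstract

variable {Λ : Type*} [CommRing Λ] {p : ℕ} [hp : Fact p.Prime] {t v : Λ}

theorem rel_of_pow {t : Λ} (h : (1 + t) ^ p = 1) :
    ∃ v, (p : Λ) * t = -t ^ p + t ^ (p + 1) * v := by
  obtain ⟨c, hc⟩ := binom_prime hp.out t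
  rw [h] at hc
  have h1 : (p : Λ) * t = -t ^ p + (p * t) * (-(t * c)) := by linear_combination -hc
  have h2 : ∀ m : ℕ, ∃ v,
      (p : Λ) * t = -t ^ p + t ^ (p + 1) * v + (p * t) * (-(t * c)) ^ (m + 1) := by
    intro m
    induction m with
    | zero => exact ⟨0, by rw [zero_add, pow_one, mul_zero, add_zero]; exact h1⟩
    | succ m ih =>
      obtain ⟨v, hv⟩ := ih
      refine ⟨v + c * (-(t * c)) ^ m, ?_⟩
      have h3 : (p : Λ) * t * (-(t * c)) ^ (m + 1) =
          t ^ (p + 1) * (c * (-(t * c)) ^ m) + (p * t) * (-(t * c)) ^ (m + 1 + 1) := by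
        linear_combination (-(t * c)) ^ (m + 1) * h1
      linear_combination hv + h3
  obtain ⟨v, hv⟩ := h2 (p - 1)
  rw [Nat.sub_add_cancel hp.out.one_le] at hv
  exact ⟨v + p * (-c) ^ p, by linear_combination hv⟩

theorem tk_zero (ht : ∀ x, t ^ 2 * x = 0 → t * x = 0) (k : ℕ) (x : Λ)
    (h : t ^ (k + 1) * x = 0) : t * x = 0 := by
  induction k generalizing x with
  | zero => rwa [zero_add, pow_one] at h
  | succ k ih => exact ht x (by rw [pow_two, mul_assoc]; exact ih (t * x) (by rw [← h]; ring))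

/-- `1 + t ^ k a`, `k ≥ 2`, of prime order -/
theorem tors_step (hv : (p : Λ) * t = -t ^ p + t ^ (p + 1) * v)
    (ht : ∀ x, t ^ 2 * x = 0 → t * x = 0) (hq : ∀ q : ℕ, q.Prime → q ≠ p → IsUnit (q : Λ))
    {q : ℕ} (hqp : q.Prime) {k : ℕ} {a : Λ} (h : (1 + t ^ (k + 2) * a) ^ q = 1) :
    t ^ (k + 3) ∣ t ^ (k + 2) * a := by
  obtain ⟨c, hc⟩ := binom_prime hqp (t ^ (k + 2) * a)
  rw [h] at hc
  obtain ⟨n, rfl⟩ : ∃ n, q = n + 2 := ⟨q - 2, by have := hqp.two_le; omega⟩
  by_cases hqq : n + 2 = p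
  · subst hqq
    have h1 : t ^ (k + (n + 2) + 1) * (a - t * (a * v + (-a + t * a * v) * t ^ (k + 1) * a * c +
        t ^ (k * n + k + n) * a ^ (n + 2))) = 0 := by
      have h2 : t ^ (k + (n + 2) + 1) * (t * (t ^ (k * n + k + n) * a ^ (n + 2))) =
        (t ^ (k + 2) * a) ^ (n + 2) := by
        rw [mul_pow, ← pow_mul]; ring
      have h3 : t ^ (k + (n + 2) + 1) * (a - t * (a * v + (-a + t * a * v) * t ^ (k + 1) * a * c)) =
        -(((n + 2 : ℕ) : Λ) * (t ^ (k + 2) * a) + ((n + 2 : ℕ) : Λ) * (t ^ (k + 2) * a) ^ 2 * c) := by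
        linear_combination (t ^ (k + 1) * a + t ^ (2 * k + 3) * a ^ 2 * c) * hv
      linear_combination h3 - h2 + hc
    have h2 := tk_zero ht _ _ h1
    exact ⟨a * v + (-a + t * a * v) * t ^ (k + 1) * a * c + t ^ (k * n + k + n) * a ^ (n + 2), by
      linear_combination t ^ (k + 1) * h2⟩
  · obtain ⟨u, hu⟩ := hq _ hqp hqq
    have h1 : t ^ (k + 3) ∣ (u : Λ) * (t ^ (k + 2) * a) := by
      rw [hu]
      refine ⟨-(t ^ (k + 1) * a ^ 2 * (((n + 2 : ℕ) : Λ) * c + (t ^ (k + 2) * a) ^ n)), ?_⟩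
      linear_combination -hc
    rwa [Units.dvd_mul_left] at h1

/-- `1 + t ^ 2 Λ` is torsion free -/
theorem tors_free (hv : (p : Λ) * t = -t ^ p + t ^ (p + 1) * v)
    (ht : ∀ x, t ^ 2 * x = 0 → t * x = 0) (hq : ∀ q : ℕ, q.Prime → q ≠ p → IsUnit (q : Λ))
    (hs : ∀ x, (∀ k, t ^ k ∣ x) → x = 0) {n : ℕ} (hn : 0 < n) {w : Λ} (hw : t ^ 2 ∣ w - 1)
    (h : w ^ n = 1) : w = 1 := by
  induction n using Nat.strong_induction_on generalizing w with
  | _ n ih =>
    by_cases h1 : n = 1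
    · rw [h1, pow_one] at h
      exact h
    · obtain ⟨q, hqp, m, rfl⟩ := Nat.exists_prime_and_dvd h1
      have hm : 0 < m := Nat.pos_of_mul_pos_left hn
      have hqw : w ^ q = 1 := by
        refine ih m ?_ hm ?_ (by rw [← pow_mul]; exact h)
        · exact lt_mul_of_one_lt_left hm hqp.one_lt
        · refine hw.trans ?_
          simpa using sub_dvd_pow_sub_pow w 1 q
      have h2 : ∀ k, t ^ (k + 2) ∣ w - 1 := by
        intro k
        induction k with
        | zero => exact hw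
        | succ k ihk =>
          obtain ⟨a, ha⟩ := ihk
          have hwa : w = 1 + t ^ (k + 2) * a := by rw [← ha]; ring
          rw [ha]
          exact tors_step hv ht hq hqp (by rw [← hwa]; exact hqw)
      refine sub_eq_zero.1 (hs _ fun k => ?_)
      exact (pow_dvd_pow t (Nat.le_add_right k 2)).trans (h2 k)

/-- for `w = 1 + t a` of finite order, `t (a ^ p - a)` is divisible by `t ^ 2` -/
theorem tors_one (hv : (p : Λ) * t = -t ^ p + t ^ (p + 1) * v)
    (ht : ∀ x, t ^ 2 * x = 0 → t * x = 0) (hq : ∀ q : ℕ, q.Prime → q ≠ p → IsUnit (q : Λ))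
    (hs : ∀ x, (∀ k, t ^ k ∣ x) → x = 0) {n : ℕ} (hn : 0 < n) {a : Λ}
    (h : (1 + t * a) ^ n = 1) : ∃ b, t * (a ^ p - a) = t ^ 2 * b := by
  obtain ⟨c, hc⟩ := binom_prime hp.out (t * a)
  obtain ⟨m, hm⟩ : ∃ m, p = m + 2 := ⟨p - 2, by have := hp.out.two_le; omega⟩
  have h1 : (1 + t * a) ^ p - 1 = t ^ p * (a ^ p - a - t * (-(a * v) + (1 - t * v) * a ^ 2 * c)) := by
    rw [hc, mul_pow]
    linear_combination (a + t * a ^ 2 * c) * hv
  have h2 : (1 + t * a) ^ p = 1 := by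
    refine tors_free hv ht hq hs hn ?_ ?_
    · rw [h1]
      exact (pow_dvd_pow t hp.out.two_le).mul_right _
    · rw [← pow_mul, mul_comm p n, pow_mul, h, one_pow]
  rw [h2, sub_self, hm] at h1
  have h3 := tk_zero ht _ _ h1.symm
  rw [← hm] at h3
  exact ⟨-(a * v) + (1 - t * v) * a ^ 2 * c, by linear_combination h3⟩

end abstract

end Pool.Agent.helper61.ER
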