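import Mathlib
import Pool.Agent.helper61.ER.TorsA

/-!
# Group rings: the quotient by a central element
-/

set_option autoImplicit false
set_option linter.unusedSectionVars false

namespace Pool.Agent.helper61.ER

open MonoidAlgebra

section quot

variable (k : Type*) [CommRing k] {G : Type*} [Group G] (z : G)
  [hN : (Subgroup.zpowers z).Normal]

/-- the projection of group rings -/
noncomputable def proj : MonoidAlgebra k G →+* MonoidAlgebra k (G ⧸ Subgroup.zpowers z) :=
  mapDomainRingHom k (QuotientGroup.mk' (Subgroup.zpowers z))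

/-- a section -/
noncomputable def sec (y : MonoidAlgebra k (G ⧸ Subgroup.zpowers z)) : MonoidAlgebra k G :=
  mapDomain Quotient.out y

theorem proj_single (g : G) (r : k) :
    proj k z (single g r) = single (g : G ⧸ Subgroup.zpowers z) r := by
  simp [proj]

theorem sec_add (x y : MonoidAlgebra k (G ⧸ Subgroup.zpowers z)) :
    sec k z (x + y) = sec k z x + sec k z y := by
  simp [sec, mapDomain_add]

theorem sec_single (g : G ⧸ Subgroup.zpowers z) (r : k) :
    sec k z (single g r) = single g.out r := by
  simp [sec]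

theorem proj_sec (y : MonoidAlgebra k (G ⧸ Subgroup.zpowers z)) : proj k z (sec k z y) = y := by
  induction y using induction_linear with
  | zero => simp [sec]
  | add x y hx hy => rw [sec_add, map_add, hx, hy]
  | single g r => rw [sec_single, proj_single, QuotientGroup.out_eq']

theorem proj_z : proj k z (single z 1) = 1 := by
  rw [proj_single, (QuotientGroup.eq_one_iff z).2 (Subgroup.mem_zpowers z)]
  rfl

variable [Finite G]

theorem zpow_sub_one (i : Subgroup.zpowers z) :
    ∃ y : MonoidAlgebra k G, single (i : G) 1 - 1 = (single z 1 - 1) * y := by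
  obtain ⟨i, hi⟩ := i
  obtain ⟨n, rfl⟩ := mem_powers_iff_mem_zpowers.2 hi
  refine ⟨∑ j ∈ Finset.range n, (single z 1) ^ j, ?_⟩
  rw [mul_geom_sum, single_pow, one_pow]

theorem sub_sec (hz : ∀ g, z * g = g * z) (x : MonoidAlgebra k G) :
    ∃ y, x = sec k z (proj k z x) + (single z 1 - 1) * y := by
  induction x using induction_linear with
  | zero => exact ⟨0, by simp [sec]⟩
  | add x y hx hy =>
    obtain ⟨a, ha⟩ := hx
    obtain ⟨b, hb⟩ := hy
    refine ⟨a + b, ?_⟩
    rw [map_add, sec_add, mul_add]
    nth_rewrite 1 [ha, hb]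
    abel
  | single g r =>
    rw [proj_single, sec_single]
    obtain ⟨i, hi⟩ := QuotientGroup.mk_out_eq_mul (Subgroup.zpowers z) g
    rw [hi]
    obtain ⟨y, hy⟩ := zpow_sub_one k z i
    have hc : (i : G) * g = g * i := by
      obtain ⟨n, hn⟩ := mem_powers_iff_mem_zpowers.2 i.2
      rw [← hn]
      exact (Commute.pow_left (hz g) n)
    refine ⟨-(y * single g r), ?_⟩
    rw [mul_neg, ← mul_assoc, ← hy, sub_mul, one_mul, single_mul_single, one_mul, hc]
    abel

theorem mem_ker_proj (hz : ∀ g, z * g = g * z) (x : MonoidAlgebra k G) (hx : proj k z x = 0) :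
    ∃ y, x = (single z 1 - 1) * y := by
  obtain ⟨y, hy⟩ := sub_sec k z hz x
  rw [hx] at hy
  exact ⟨y, by rw [hy]; simp [sec]⟩

/-- an element killed by `z - 1` is invariant -/
theorem coeff_of_tx {x : MonoidAlgebra k G} (hx : (single z 1 - 1) * x = 0)
    (i : Subgroup.zpowers z) (g : G) : x.coeff (i * g) = x.coeff g := by
  have h1 : ∀ i : Subgroup.zpowers z, single (i : G) 1 * x = x := by
    intro i
    obtain ⟨y, hy⟩ := zpow_sub_one k z i
    have h2 : (single (i : G) 1 - 1) * x = 0 := by
      obtain ⟨n, hn⟩ := mem_powers_iff_mem_zpowers.2 i.2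
      have h3 : (single (i : G) (1 : k) - 1) =
          (∑ j ∈ Finset.range n, (single z (1 : k)) ^ j) * (single z 1 - 1) := by
        rw [geom_sum_mul, ← hn]
        simp only
        rw [single_pow, one_pow]
      rw [h3, mul_assoc, hx, mul_zero]
    rw [sub_mul, one_mul, sub_eq_zero] at h2
    exact h2
  have h2 := congrArg (fun y => y.coeff (i * g)) (h1 i)
  rw [← h2]
  simp

/-- the coefficients of the projection -/
theorem coeff_proj [Fintype G] [DecidableEq (G ⧸ Subgroup.zpowers z)] (x : MonoidAlgebra k G)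
    (c : G ⧸ Subgroup.zpowers z) : (proj k z x).coeff c =
      ∑ g : G, if (g : G ⧸ Subgroup.zpowers z) = c then x.coeff g else 0 := by
  induction x using induction_linear with
  | zero => simp
  | add x y hx hy =>
    rw [map_add, coeff_add, Finsupp.add_apply, hx, hy, ← Finset.sum_add_distrib]
    refine Finset.sum_congr rfl fun g _ => ?_
    split_ifs <;> simp
  | single g r =>
    rw [proj_single, coeff_single, Finsupp.single_apply]
    rw [Finset.sum_eq_single g]
    · simp
    · intro b _ hb
      simp [coeff_single, Ne.symm hb]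
    · simp

theorem card_fiber [Fintype G] [DecidableEq (G ⧸ Subgroup.zpowers z)]
    (c : G ⧸ Subgroup.zpowers z) :
    (Finset.univ.filter fun g : G => (g : G ⧸ Subgroup.zpowers z) = c).card = orderOf z := by
  rw [← Nat.card_zpowers, ← Fintype.card_subtype, ← Nat.card_eq_fintype_card]
  refine Nat.card_congr ⟨fun g => ⟨c.out⁻¹ * g, ?_⟩, fun i => ⟨c.out * i, ?_⟩, fun g => ?_,
    fun i => ?_⟩
  · rw [← QuotientGroup.eq, QuotientGroup.out_eq', g.2]
  · have h : ((c.out : G) : G ⧸ Subgroup.zpowers z) = ((c.out * i : G) : G ⧸ _) := by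
      rw [QuotientGroup.eq, inv_mul_cancel_left]
      exact i.2
    rw [← h, QuotientGroup.out_eq']
  · simp
  · simp

/-- the projection of an invariant element is divisible by the order of `z` -/
theorem proj_of_tx (hz : ∀ g, z * g = g * z) {x : MonoidAlgebra k G}
    (hx : (single z 1 - 1) * x = 0) :
    ∃ y, proj k z x = (orderOf z : MonoidAlgebra k (G ⧸ Subgroup.zpowers z)) * y := by
  classical
  have := Fintype.ofFinite G
  have := Fintype.ofFinite (G ⧸ Subgroup.zpowers z)
  refine ⟨∑ c : G ⧸ Subgroup.zpowers z, single c (x.coeff c.out), ?_⟩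
  have hmul : ∀ (n : ℕ) (w : MonoidAlgebra k (G ⧸ Subgroup.zpowers z)),
      ((n : MonoidAlgebra k (G ⧸ Subgroup.zpowers z)) * w) = n • w := fun n w => by
    rw [nsmul_eq_mul]
  ext c
  rw [coeff_proj, hmul, coeff_smul, Finsupp.smul_apply, coeff_sum, Finset.sum_apply']
  have h1 : ∀ g : G, (if (g : G ⧸ Subgroup.zpowers z) = c then x.coeff g else 0) =
      if (g : G ⧸ Subgroup.zpowers z) = c then x.coeff c.out else 0 := by
    intro g
    split_ifs with hg
    · obtain ⟨i, hi⟩ := QuotientGroup.mk_out_eq_mul (Subgroup.zpowers z) g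
      have hc : (i : G) * g = g * i := by
        obtain ⟨n, hn⟩ := mem_powers_iff_mem_zpowers.2 i.2
        rw [← hn]
        exact (Commute.pow_left (hz g) n)
      rw [← hg, hi, ← hc, coeff_of_tx k z hx]
    · rfl
  rw [Finset.sum_congr rfl fun g _ => h1 g, ← Finset.sum_filter, Finset.sum_const, card_fiber,
    Finset.sum_eq_single c]
  · simp
  · intro b _ hb
    simp [coeff_single, hb]
  · simp

end quot

end Pool.Agent.helper61.ER
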