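import Mathlib
import Pool.Agent.helper61.ER.TorsB

/-!
# Torsion units of `ℤ_p[A]`
-/

set_option autoImplicit false
set_option linter.unusedSectionVars false

namespace Pool.Agent.helper61.ER

open MonoidAlgebra

section basic

variable {p : ℕ} [hp : Fact p.Prime] {M : Type*} [Monoid M]

theorem natCast_mul_coeff (k : Type*) [CommRing k] (n : ℕ) (x : MonoidAlgebra k M) (g : M) :
    ((n : MonoidAlgebra k M) * x).coeff g = n * x.coeff g := by
  rw [← nsmul_eq_mul, coeff_smul, Finsupp.smul_apply, nsmul_eq_mul]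

theorem p_free (x : MonoidAlgebra ℤ_[p] M) (h : (p : MonoidAlgebra ℤ_[p] M) * x = 0) : x = 0 := by
  ext g
  have h1 := congrArg (fun y => y.coeff g) h
  simp only [natCast_mul_coeff, coeff_zero, Finsupp.coe_zero, Pi.zero_apply] at h1
  simp only [coeff_zero, Finsupp.coe_zero, Pi.zero_apply]
  exact (mul_eq_zero.1 h1).resolve_left (by exact_mod_cast hp.out.ne_zero)

theorem sep_p (x : MonoidAlgebra ℤ_[p] M) (h : ∀ k, (p : MonoidAlgebra ℤ_[p] M) ^ k ∣ x) :
    x = 0 := by
  ext g
  simp only [coeff_zero, Finsupp.coe_zero, Pi.zero_apply]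
  by_contra hx
  have h1 : ∀ k : ℕ, (p : ℤ_[p]) ^ k ∣ x.coeff g := by
    intro k
    obtain ⟨y, hy⟩ := h k
    refine ⟨y.coeff g, ?_⟩
    rw [hy, ← Nat.cast_pow, natCast_mul_coeff, Nat.cast_pow]
  have h2 := FiniteMultiplicity.of_not_isUnit (a := (p : ℤ_[p])) (b := x.coeff g)
    PadicInt.prime_p.not_isUnit hx
  obtain ⟨n, hn⟩ := h2
  exact hn (h1 (n + 1))

theorem isUnit_q {q : ℕ} (hq : q.Prime) (hqp : q ≠ p) : IsUnit (q : MonoidAlgebra ℤ_[p] M) := by
  have h1 : IsUnit (q : ℤ_[p]) := by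
    rw [PadicInt.isUnit_iff, PadicInt.norm_natCast_eq_one_iff]
    exact (Nat.coprime_primes hp.out hq).2 hqp.symm
  have h2 := h1.map (algebraMap ℤ_[p] (MonoidAlgebra ℤ_[p] M))
  rwa [map_natCast] at h2

end basic

section comm

variable {p : ℕ} [hp : Fact p.Prime] {A : Type*} [CommGroup A] [Finite A]

theorem pow_z {z : A} (hz : z ^ p = 1) :
    (1 + (single z 1 - 1 : MonoidAlgebra ℤ_[p] A)) ^ p = 1 := by
  rw [add_sub_cancel, single_pow, one_pow, hz]
  rfl

theorem ht_z {z : A} (hz : z ^ p = 1) (x : MonoidAlgebra ℤ_[p] A)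
    (h : (single z 1 - 1 : MonoidAlgebra ℤ_[p] A) ^ 2 * x = 0) :
    (single z 1 - 1 : MonoidAlgebra ℤ_[p] A) * x = 0 := by
  set t : MonoidAlgebra ℤ_[p] A := single z 1 - 1 with ht
  have h1 : (single z (1 : ℤ_[p])) * (t * x) = t * x := by
    have : (single z (1 : ℤ_[p])) = t + 1 := by rw [ht]; ring
    rw [this]
    linear_combination h
  have h2 : ∀ i : ℕ, (single z (1 : ℤ_[p])) ^ i * (t * x) = t * x := by
    intro i
    induction i with
    | zero => rw [pow_zero, one_mul]
    | succ i ih => rw [pow_succ, mul_assoc, h1, ih]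
  have h3 : (∑ i ∈ Finset.range p, (single z (1 : ℤ_[p])) ^ i) * (t * x) = 0 := by
    rw [← mul_assoc, ht, geom_sum_mul, single_pow, one_pow, hz]
    have : (single (1 : A) (1 : ℤ_[p])) = 1 := rfl
    rw [this, sub_self, zero_mul]
  rw [Finset.sum_mul, Finset.sum_congr rfl fun i _ => h2 i, Finset.sum_const, Finset.card_range,
    nsmul_eq_mul] at h3
  exact p_free _ h3

theorem hs_z {z : A} (hz : z ^ p = 1) (x : MonoidAlgebra ℤ_[p] A)
    (h : ∀ k, (single z 1 - 1 : MonoidAlgebra ℤ_[p] A) ^ k ∣ x) : x = 0 := by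
  set t : MonoidAlgebra ℤ_[p] A := single z 1 - 1 with ht
  have h1 : (p : MonoidAlgebra ℤ_[p] A) ∣ t ^ p := by
    obtain ⟨c, hc⟩ := binom_prime hp.out t
    rw [pow_z hz] at hc
    exact ⟨-(t + t ^ 2 * c), by linear_combination -hc⟩
  refine sep_p x fun k => ?_
  refine (pow_dvd_pow_of_dvd h1 k).trans ?_
  rw [← pow_mul]
  exact h _

/-- the augmentation -/
noncomputable def aug (k : Type*) [CommRing k] (M : Type*) [Monoid M] : MonoidAlgebra k M →ₐ[k] k :=
  MonoidAlgebra.lift k k M 1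

theorem aug_single (k : Type*) [CommRing k] {M : Type*} [Monoid M] (g : M) (r : k) :
    aug k M (single g r) = r := by
  simp [aug, lift_single]

theorem aug_proj (z : A) (x : MonoidAlgebra ℤ_[p] A) :
    aug ℤ_[p] _ (proj ℤ_[p] z x) = aug ℤ_[p] _ x := by
  induction x using induction_linear with
  | zero => simp
  | add x y hx hy => simp only [map_add, hx, hy]
  | single g r => rw [proj_single, aug_single, aug_single]

/-- elements of `F_p[B]` fixed by the Frobenius are constants -/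
theorem frob_fix {B : Type*} [CommGroup B] [Finite B] (hB : IsPGroup p B)
    (x : MonoidAlgebra (ZMod p) B) (hx : x ^ p = x) : ∃ c : ZMod p, x = single 1 c := by
  obtain ⟨n, hn⟩ := IsPGroup.iff_card.1 hB
  have hB' : ∀ x : B, x ^ p ^ n = 1 := fun x => by rw [← hn, pow_card_eq_one']
  have hc : CharP (MonoidAlgebra (ZMod p) B) p := by
    refine charP_of_injective_algebraMap (R := ZMod p) ?_ p
    intro a b h
    have := congrArg (fun y => y.coeff 1) h
    simpa using this
  have h1 : iterateFrobenius (MonoidAlgebra (ZMod p) B) p n =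
      mapDomainRingHom (ZMod p) (powMonoidHom (p ^ n) : B →* B) := by
    refine ringHom_ext (fun r => ?_) (fun g => ?_)
    · rw [iterateFrobenius_def, single_pow, one_pow, ZMod.pow_card_pow]
      simp
    · rw [iterateFrobenius_def, single_pow, one_pow]
      simp
  have h2 : ∀ m, x ^ p ^ m = x := by
    intro m
    induction m with
    | zero => simp
    | succ m ih => rw [pow_succ, pow_mul, ih, hx]
  refine ⟨aug (ZMod p) B x, ?_⟩
  have h3 : x = mapDomainRingHom (ZMod p) (powMonoidHom (p ^ n) : B →* B) x := by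
    rw [← h1, iterateFrobenius_def, h2]
  have h4 : ∀ y : MonoidAlgebra (ZMod p) B,
      mapDomainRingHom (ZMod p) (powMonoidHom (p ^ n) : B →* B) y = single 1 (aug (ZMod p) B y) := by
    intro y
    induction y using induction_linear with
    | zero => simp
    | add x y hx hy => rw [map_add, hx, hy, map_add, single_add]
    | single g r =>
      rw [aug_single]
      simp [hB']
  exact h3.trans (h4 x)

/-- reduction of the coefficients modulo `p` -/
noncomputable def red (p : ℕ) [Fact p.Prime] (M : Type*) [Monoid M] :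
    MonoidAlgebra ℤ_[p] M →+* MonoidAlgebra (ZMod p) M :=
  MonoidAlgebra.mapRingHom M (PadicInt.toZMod)

theorem red_eq_zero {M : Type*} [Monoid M] [Finite M] (x : MonoidAlgebra ℤ_[p] M)
    (h : red p M x = 0) : (p : MonoidAlgebra ℤ_[p] M) ∣ x := by
  have h1 : ∀ g, ∃ r, x.coeff g = p * r := by
    intro g
    have h2 := congrArg (fun y => y.coeff g) h
    simp only [red, coeff_mapRingHom, coeff_zero, Finsupp.coe_zero, Pi.zero_apply] at h2
    rw [← RingHom.mem_ker, PadicInt.ker_toZMod, PadicInt.maximalIdeal_eq_span_p,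
      Ideal.mem_span_singleton] at h2
    exact h2
  choose f hf using h1
  refine ⟨ofCoeff (Finsupp.equivFunOnFinite.symm f), ?_⟩
  ext g
  rw [natCast_mul_coeff, hf]
  simp

theorem pow_mod_t2 {Λ : Type*} [CommRing Λ] (t : Λ) (n : ℕ) :
    ∃ b, (1 + t) ^ n = 1 + n * t + t ^ 2 * b := by
  induction n with
  | zero => exact ⟨0, by simp⟩
  | succ n ih =>
    obtain ⟨b, hb⟩ := ih
    exact ⟨b + n + t * b, by rw [pow_succ, hb]; push_cast; ring⟩

/-- torsion elements congruent to one modulo `z - 1` are powers of `z` -/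
theorem tors_z (hA : IsPGroup p A) {z : A} (hz : orderOf z = p) {a : MonoidAlgebra ℤ_[p] A} {n : ℕ}
    (hn : 0 < n) (h : (1 + (single z 1 - 1) * a) ^ n = 1) :
    ∃ i, 1 + (single z 1 - 1) * a = single (z ^ i) 1 := by
  have hzp : z ^ p = 1 := by rw [← hz, pow_orderOf_eq_one]
  set t : MonoidAlgebra ℤ_[p] A := single z 1 - 1 with ht
  have h1t : single z (1 : ℤ_[p]) = 1 + t := by rw [ht]; ring
  obtain ⟨v, hv⟩ := rel_of_pow (p := p) (pow_z hzp)
  rw [← ht] at hv
  obtain ⟨b, hb⟩ := tors_one hv (ht_z hzp) (fun q hq hqp => isUnit_q hq hqp) (hs_z hzp) hn h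
  have h1 : t * (a ^ p - a - t * b) = 0 := by linear_combination hb
  obtain ⟨y, hy⟩ := proj_of_tx ℤ_[p] z (fun g => mul_comm _ _) h1
  have ht0 : proj ℤ_[p] z t = 0 := by rw [ht, map_sub, proj_z, map_one, sub_self]
  rw [map_sub, map_sub, map_pow, map_mul, ht0, zero_mul, sub_zero, hz] at hy
  have h2 : (red p _ (proj ℤ_[p] z a)) ^ p = red p _ (proj ℤ_[p] z a) := by
    rw [← sub_eq_zero, ← map_pow, ← map_sub, hy, map_mul, map_natCast]
    have : ((p : ℕ) : MonoidAlgebra (ZMod p) (A ⧸ Subgroup.zpowers z)) = 0 := by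
      ext g
      have := natCast_mul_coeff (ZMod p) p (1 : MonoidAlgebra (ZMod p) (A ⧸ Subgroup.zpowers z)) g
      rw [mul_one] at this
      rw [this]
      simp
    rw [this, zero_mul]
  obtain ⟨c, hc⟩ := frob_fix (hA.to_quotient _) _ h2
  have h3 : red p _ (proj ℤ_[p] z (a - (c.val : ℕ))) = 0 := by
    rw [map_sub, map_sub, hc, map_natCast, map_natCast, sub_eq_zero]
    have : (c.val : MonoidAlgebra (ZMod p) (A ⧸ Subgroup.zpowers z)) =
        algebraMap (ZMod p) _ ((c.val : ℕ) : ZMod p) := by rw [map_natCast]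
    rw [this, ZMod.natCast_zmod_val]
    rfl
  obtain ⟨y', hy'⟩ := red_eq_zero _ h3
  obtain ⟨y'', hy''⟩ := sub_sec ℤ_[p] z (fun g => mul_comm _ _) (a - (c.val : ℕ))
  have h4 : sec ℤ_[p] z ((p : MonoidAlgebra ℤ_[p] (A ⧸ Subgroup.zpowers z)) * y') =
      p * sec ℤ_[p] z y' := by
    have : ∀ n : ℕ, sec ℤ_[p] z ((n : MonoidAlgebra ℤ_[p] (A ⧸ Subgroup.zpowers z)) * y') =
        n * sec ℤ_[p] z y' := by
      intro n
      induction n with
      | zero => simp [sec]
      | succ n ih =>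
        push_cast
        rw [add_mul, one_mul, sec_add, ih, add_mul, one_mul]
    exact this p
  rw [hy', h4, ← ht] at hy''
  obtain ⟨b', hb'⟩ := pow_mod_t2 t c.val
  have h5 : t ^ 2 ∣ 1 + t * a - (1 + t) ^ c.val := by
    obtain ⟨m, hm⟩ : ∃ m, p = m + 2 := ⟨p - 2, by have := hp.out.two_le; omega⟩
    rw [hb']
    refine ⟨(-t ^ m + t ^ (m + 1) * v) * sec ℤ_[p] z y' + y'' - b', ?_⟩
    have h6 : (p : MonoidAlgebra ℤ_[p] A) * t = t ^ 2 * (-t ^ m + t ^ (m + 1) * v) := by
      have e1 : t ^ p = t ^ 2 * t ^ m := by rw [← pow_add]; congr 1; omega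
      have e2 : t ^ (p + 1) = t ^ 2 * t ^ (m + 1) := by rw [← pow_add]; congr 1; omega
      rw [hv, e1, e2]
      ring
    linear_combination t * hy'' + sec ℤ_[p] z y' * h6
  have h7 : (1 + t) ^ p = 1 := by rw [← h1t, single_pow, one_pow, hzp]; rfl
  have h8 : (1 + t) ^ c.val * (1 + t) ^ (c.val * (p - 1)) = 1 := by
    rw [← pow_add]
    have : c.val + c.val * (p - 1) = p * c.val := by
      have e1 : c.val + c.val * (p - 1) = c.val * ((p - 1) + 1) := by ring
      rw [e1, Nat.sub_add_cancel hp.out.one_le, mul_comm]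
    rw [this, pow_mul, h7, one_pow]
  refine ⟨c.val, ?_⟩
  have h10 : single (z ^ c.val) (1 : ℤ_[p]) = (1 + t) ^ c.val := by
    rw [← h1t, single_pow, one_pow]
  rw [h10]
  have h9 : (1 + t * a) * (1 + t) ^ (c.val * (p - 1)) = 1 := by
    refine tors_free hv (ht_z hzp) (fun q hq hqp => isUnit_q hq hqp) (hs_z hzp)
      (n := n * p) (Nat.mul_pos hn hp.out.pos) ?_ ?_
    · refine (h5.mul_right ((1 + t) ^ (c.val * (p - 1)))).trans (dvd_of_eq ?_)
      linear_combination -h8
    · rw [mul_pow, pow_mul, h, one_pow, one_mul, ← pow_mul]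
      have : c.val * (p - 1) * (n * p) = p * (c.val * (p - 1) * n) := by ring
      rw [this, pow_mul, h7, one_pow]
  calc 1 + t * a = (1 + t * a) * ((1 + t) ^ c.val * (1 + t) ^ (c.val * (p - 1))) := by
        rw [h8, mul_one]
    _ = (1 + t) ^ c.val * ((1 + t * a) * (1 + t) ^ (c.val * (p - 1))) := by ring
    _ = (1 + t) ^ c.val := by rw [h9, mul_one]

end comm

end Pool.Agent.helper61.ER
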