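import Mathlib
import Pool.Agent.helper61.ER.TorsC

/-!
# Torsion units of `ℤ_p[A]`: the classification
-/

set_option autoImplicit false
set_option linter.unusedSectionVars false

namespace Pool.Agent.helper61.ER

open MonoidAlgebra

universe u

section free

variable {Λ : Type*} [CommRing Λ] {p : ℕ} [hp : Fact p.Prime]

theorem pk_zero (hf : ∀ x : Λ, (p : Λ) * x = 0 → x = 0) (k : ℕ) (x : Λ)
    (h : (p : Λ) ^ k * x = 0) : x = 0 := by
  induction k with
  | zero => rwa [pow_zero, one_mul] at h
  | succ k ih => exact ih (hf _ (by rw [← h]; ring))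

/-- `1 + p Λ` is torsion free, `p` odd -/
theorem one_add_p_free (hp2 : p ≠ 2) (hf : ∀ x : Λ, (p : Λ) * x = 0 → x = 0)
    (hq : ∀ q : ℕ, q.Prime → q ≠ p → IsUnit (q : Λ))
    (hs : ∀ x : Λ, (∀ k, (p : Λ) ^ k ∣ x) → x = 0) {n : ℕ} (hn : 0 < n) {w : Λ}
    (hw : (p : Λ) ∣ w - 1) (h : w ^ n = 1) : w = 1 := by
  induction n using Nat.strong_induction_on generalizing w with
  | _ n ih =>
    by_cases h1 : n = 1
    · rw [h1, pow_one] at h
      exact h
    · obtain ⟨q, hqp, m, rfl⟩ := Nat.exists_prime_and_dvd h1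
      have hm : 0 < m := Nat.pos_of_mul_pos_left hn
      have hqw : w ^ q = 1 := by
        refine ih m ?_ hm ?_ (by rw [← pow_mul]; exact h)
        · exact lt_mul_of_one_lt_left hm hqp.one_lt
        · refine hw.trans ?_
          simpa using sub_dvd_pow_sub_pow w 1 q
      have h2 : ∀ k, (p : Λ) ^ (k + 1) ∣ w - 1 := by
        intro k
        induction k with
        | zero => rw [zero_add, pow_one]; exact hw
        | succ k ihk =>
          obtain ⟨a, ha⟩ := ihk
          have hwa : w = 1 + (p : Λ) ^ (k + 1) * a := by rw [← ha]; ring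
          obtain ⟨c, hc⟩ := binom_prime hqp ((p : Λ) ^ (k + 1) * a)
          rw [← hwa, hqw] at hc
          rw [ha]
          by_cases hqq : q = p
          · subst hqq
            obtain ⟨j, hj⟩ : ∃ j, q = j + 3 := ⟨q - 3, by have := hqp.two_le; omega⟩
            have e1 : ((q : Λ) ^ (k + 1) * a) ^ q =
                (q : Λ) ^ (k + 2) * ((q : Λ) * ((q : Λ) ^ (2 * k + (k + 1) * j) * a ^ q)) := by
              rw [mul_pow, ← pow_mul]
              have : (k + 1) * q = (k + 2) + (1 + (2 * k + (k + 1) * j)) := by rw [hj]; ring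
              rw [this]
              ring
            rw [e1] at hc
            have e2 : (q : Λ) ^ (k + 2) * (a + (q : Λ) * ((q : Λ) ^ k * a ^ 2 * c +
                (q : Λ) ^ (2 * k + (k + 1) * j) * a ^ q)) = 0 := by
              linear_combination -hc
            have e3 := pk_zero hf _ _ e2
            exact ⟨-((q : Λ) ^ k * a ^ 2 * c + (q : Λ) ^ (2 * k + (k + 1) * j) * a ^ q), by
              linear_combination (q : Λ) ^ (k + 1) * e3⟩
          · obtain ⟨j, hj⟩ : ∃ j, q = j + 2 := ⟨q - 2, by have := hqp.two_le; omega⟩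
            obtain ⟨u, hu⟩ := hq _ hqp hqq
            have h1 : (p : Λ) ^ (k + 1 + 1) ∣ (u : Λ) * ((p : Λ) ^ (k + 1) * a) := by
              rw [hu]
              have e1 : ((p : Λ) ^ (k + 1) * a) ^ q = ((p : Λ) ^ (k + 1) * a) ^ 2 *
                  ((p : Λ) ^ (k + 1) * a) ^ j := by rw [← pow_add, hj, add_comm 2 j]
              rw [e1] at hc
              refine ⟨-((p : Λ) ^ k * a ^ 2 * ((q : Λ) * c + ((p : Λ) ^ (k + 1) * a) ^ j)), ?_⟩
              linear_combination -hc
            rwa [Units.dvd_mul_left] at h1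
      refine sub_eq_zero.1 (hs _ fun k => ?_)
      exact (pow_dvd_pow (p : Λ) (Nat.le_add_right k 1)).trans (h2 k)

end free

variable {p : ℕ} [hp : Fact p.Prime]

theorem tors_aug_one (N : ℕ) : ∀ (A : Type u) [CommGroup A] [Finite A], Nat.card A = N →
    IsPGroup p A → ∀ (y : MonoidAlgebra ℤ_[p] A) (n : ℕ), 0 < n → y ^ n = 1 →
      aug ℤ_[p] A y = 1 → ∃ a, y = single a 1 := by
  induction N using Nat.strong_induction_on with
  | _ N ih =>
    intro A _ _ hN hA y n hn hy hy1
    by_cases hA1 : Subsingleton A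
    · refine ⟨1, ?_⟩
      have h : ∀ x : MonoidAlgebra ℤ_[p] A, x = single 1 (aug ℤ_[p] A x) := by
        intro x
        induction x using induction_linear with
        | zero => simp
        | add x y hx hy =>
          rw [map_add, single_add]
          nth_rewrite 1 [hx, hy]
          rfl
        | single g r => rw [aug_single, Subsingleton.elim g 1]
      rw [h y, hy1]
    · have hcard : p ∣ Nat.card A := by
        obtain ⟨k, hk⟩ := IsPGroup.iff_card.1 hA
        rw [hk]
        refine dvd_pow_self p ?_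
        rintro rfl
        rw [pow_zero] at hk
        exact hA1 ((Nat.card_eq_one_iff_unique.1 hk).1)
      obtain ⟨z, hz⟩ := exists_prime_orderOf_dvd_card' p hcard
      have hlt : Nat.card (A ⧸ Subgroup.zpowers z) < N := by
        rw [← hN, Subgroup.card_eq_card_quotient_mul_card_subgroup (Subgroup.zpowers z),
          Nat.card_zpowers, hz]
        exact lt_mul_of_one_lt_right Nat.card_pos hp.out.one_lt
      obtain ⟨a', ha'⟩ := ih _ hlt (A ⧸ Subgroup.zpowers z) rfl (hA.to_quotient _)
        (proj ℤ_[p] z y) n hn (by rw [← map_pow, hy, map_one]) (by rw [aug_proj, hy1])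
      obtain ⟨a, ha⟩ := QuotientGroup.mk'_surjective _ a'
      rw [QuotientGroup.mk'_apply] at ha
      obtain ⟨b, hb⟩ := mem_ker_proj ℤ_[p] z (fun g => mul_comm _ _)
        (single a⁻¹ 1 * y - 1) (by
          rw [map_sub, map_mul, ha', ← ha, proj_single, map_one, single_mul_single, one_mul,
            QuotientGroup.mk_inv, inv_mul_cancel]
          exact sub_self _)
      have hb' : single a⁻¹ 1 * y = 1 + (single z 1 - 1) * b := by rw [← hb]; ring
      obtain ⟨i, hi⟩ := tors_z hA hz (a := b) (n := n * Nat.card A)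
        (Nat.mul_pos hn Nat.card_pos) (by
          rw [← hb', mul_pow, pow_mul y, hy, one_pow, mul_one, single_pow, one_pow, inv_pow,
            mul_comm n, pow_mul, pow_card_eq_one', one_pow, inv_one]
          rfl)
      refine ⟨a * z ^ i, ?_⟩
      rw [← mul_one (1 : ℤ_[p]), ← single_mul_single, ← hi, ← hb', ← mul_assoc,
        single_mul_single, mul_inv_cancel, one_mul]
      exact (one_mul y).symm

theorem pow_sub_one_of_pow (hp2 : p ≠ 2) (ξ : ℤ_[p]) {n : ℕ} (hn : 0 < n) (h : ξ ^ n = 1) :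
    ξ ^ (p - 1) = 1 := by
  refine one_add_p_free (p := p) (Λ := ℤ_[p]) hp2 ?_ ?_ ?_ hn (w := ξ ^ (p - 1)) ?_ ?_
  · intro x hx
    exact (mul_eq_zero.1 hx).resolve_left (by exact_mod_cast hp.out.ne_zero)
  · intro q hq hqp
    rw [PadicInt.isUnit_iff, PadicInt.norm_natCast_eq_one_iff]
    exact (Nat.coprime_primes hp.out hq).2 hqp.symm
  · intro x hx
    by_contra hx0
    obtain ⟨m, hm⟩ := FiniteMultiplicity.of_not_isUnit (a := (p : ℤ_[p])) (b := x)
      PadicInt.prime_p.not_isUnit hx0
    exact hm (hx (m + 1))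
  · have h1 : PadicInt.toZMod (p := p) (ξ ^ (p - 1) - 1) = 0 := by
      have h2 : PadicInt.toZMod (p := p) ξ ≠ 0 := by
        intro h3
        have h4 := congrArg (PadicInt.toZMod (p := p)) h
        rw [map_pow, h3, zero_pow hn.ne', map_one] at h4
        exact zero_ne_one h4
      rw [map_sub, map_pow, map_one, ZMod.pow_card_sub_one_eq_one h2, sub_self]
    rw [← RingHom.mem_ker, PadicInt.ker_toZMod, PadicInt.maximalIdeal_eq_span_p,
      Ideal.mem_span_singleton] at h1
    exact h1
  · rw [← pow_mul, mul_comm, pow_mul, h, one_pow]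

/-- **torsion units of `ℤ_p[A]`**, `A` a finite commutative `p`-group -/
theorem torsion_units_of_pow (hp2 : p ≠ 2) {A : Type u} [CommGroup A] [Finite A]
    (hA : IsPGroup p A) (v : MonoidAlgebra ℤ_[p] A) {n : ℕ} (hn : 0 < n) (h : v ^ n = 1) :
    ∃ (a : A) (ξ : ℤ_[p]), ξ ^ (p - 1) = 1 ∧ v = single a ξ := by
  have h1 : (aug ℤ_[p] A v) ^ n = 1 := by rw [← map_pow, h, map_one]
  obtain ⟨m, rfl⟩ : ∃ m, n = m + 1 := ⟨n - 1, by omega⟩
  set ξ := aug ℤ_[p] A v with hξ
  have h2 : ξ * ξ ^ m = 1 := by rw [← pow_succ']; exact h1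
  obtain ⟨a, ha⟩ := tors_aug_one (p := p) (Nat.card A) A rfl hA (single 1 (ξ ^ m) * v) (m + 1) hn
    (by
      rw [mul_pow, h, mul_one, single_pow, one_pow, ← pow_mul, mul_comm, pow_mul, h1, one_pow]
      rfl)
    (by rw [map_mul, aug_single, ← hξ, mul_comm]; exact h2)
  refine ⟨a, ξ, pow_sub_one_of_pow hp2 ξ hn h1, ?_⟩
  have h3 : single 1 ξ * (single 1 (ξ ^ m) * v) = single 1 ξ * single a 1 := by rw [ha]
  rw [← mul_assoc, single_mul_single, single_mul_single, h2, mul_one, mul_one, one_mul] at h3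
  exact (one_mul v).symm.trans h3

end Pool.Agent.helper61.ER
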